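import Mathlib

/-!
# A labyrinth in the disc of radius 1/2
-/

set_option autoImplicit false

open Set Metric Topology MeasureTheory
open scoped ENNReal NNReal

namespace Pool.Agent.Q160.Lem

/-- radii -/
noncomputable def rho (N : ℕ) (j : ℕ) : ℝ := if j = 0 then 0 else 1 / 4 + j / (4 * (N + 1))

lemma rho_zero (N : ℕ) : rho N 0 = 0 := by simp [rho]

lemma rho_succ (N j : ℕ) : rho N (j + 1) = 1 / 4 + (j + 1 : ℝ) / (4 * (N + 1)) := by
  simp [rho]

lemma rho_strictMono (N : ℕ) : StrictMono (rho N) := by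
  apply strictMono_nat_of_lt_succ
  intro j
  have hN : (0:ℝ) < 4 * (N + 1) := by positivity
  rcases j with _ | j
  · rw [rho_zero, rho_succ]; positivity
  · rw [rho_succ, rho_succ]
    have : ((j:ℝ) + 1) / (4 * (N + 1)) < (((j + 1 : ℕ) : ℝ) + 1) / (4 * (N + 1)) := by
      apply div_lt_div_of_pos_right _ hN
      push_cast; linarith
    linarith

lemma rho_ge (N : ℕ) {j : ℕ} (hj : 1 ≤ j) : 1 / 4 ≤ rho N j := by
  obtain ⟨i, rfl⟩ : ∃ i, j = i + 1 := ⟨j - 1, by omega⟩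
  rw [rho_succ]
  have : (0:ℝ) ≤ (i + 1 : ℝ) / (4 * (N + 1)) := by positivity
  linarith

lemma rho_le (N : ℕ) {j : ℕ} (hj : j ≤ N) : rho N j ≤ 1 / 2 := by
  rcases j with _ | j
  · rw [rho_zero]; norm_num
  · rw [rho_succ]
    have hN : (0:ℝ) < 4 * (N + 1) := by positivity
    have : ((j:ℝ) + 1) / (4 * (N + 1)) ≤ 1 / 4 := by
      rw [div_le_iff₀ hN]
      have : ((j + 1 : ℕ) : ℝ) ≤ N := by exact_mod_cast hj
      push_cast at this
      linarith
    linarith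

lemma rho_unbdd (N : ℕ) (R : ℝ) : ∃ j, R < rho N j := by
  obtain ⟨j, hj⟩ := exists_nat_gt (R * (4 * (N + 1)))
  refine ⟨j + 1, ?_⟩
  rw [rho_succ]
  have hN : (0:ℝ) < 4 * (N + 1) := by positivity
  have : R < (j + 1 : ℝ) / (4 * (N + 1)) := by
    rw [lt_div_iff₀ hN]; linarith
  linarith

/-- the walls -/
def wall (N : ℕ) : Set ℂ :=
  ⋃ j ∈ Finset.Icc 1 N, {z : ℂ | ‖z‖ = rho N j ∧ (-1 : ℝ) ^ j * z.re ≤ 1 / 8}

lemma mem_wall {N : ℕ} {z : ℂ} :
    z ∈ wall N ↔ ∃ j, 1 ≤ j ∧ j ≤ N ∧ ‖z‖ = rho N j ∧ (-1 : ℝ) ^ j * z.re ≤ 1 / 8 := by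
  simp only [wall, mem_iUnion, Finset.mem_Icc, exists_prop]
  constructor
  · rintro ⟨j, ⟨h1, h2⟩, h3, h4⟩; exact ⟨j, h1, h2, h3, h4⟩
  · rintro ⟨j, h1, h2, h3, h4⟩; exact ⟨j, ⟨h1, h2⟩, h3, h4⟩

lemma wall_norm {N : ℕ} {z : ℂ} (hz : z ∈ wall N) : 1 / 4 ≤ ‖z‖ ∧ ‖z‖ ≤ 1 / 2 := by
  obtain ⟨j, h1, h2, h3, -⟩ := mem_wall.1 hz
  rw [h3]
  exact ⟨rho_ge N h1, rho_le N h2⟩

lemma isCompact_wall (N : ℕ) : IsCompact (wall N) := by
  apply Metric.isCompact_of_isClosed_isBounded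
  · apply isClosed_biUnion_finset
    intro j _
    exact (isClosed_eq continuous_norm continuous_const).inter
      (isClosed_le (continuous_const.mul Complex.continuous_re) continuous_const)
  · apply (Metric.isBounded_closedBall (x := (0:ℂ)) (r := 1 / 2)).subset
    intro z hz
    rw [mem_closedBall_zero_iff]
    exact (wall_norm hz).2

/-- annulus -/
def ann (a b : ℝ) : Set ℂ := {z : ℂ | a < ‖z‖ ∧ ‖z‖ < b}

lemma ann_preconnected {a b : ℝ} (ha : 0 ≤ a) : IsPreconnected (ann a b) := by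
  have : ann a b = (fun p : ℝ × ℝ => (p.1 : ℂ) * Complex.exp (p.2 * Complex.I)) ''
      (Ioo a b ×ˢ univ) := by
    ext z
    constructor
    · rintro ⟨h1, h2⟩
      exact ⟨(‖z‖, z.arg), ⟨⟨h1, h2⟩, mem_univ _⟩, by simp⟩
    · rintro ⟨⟨r, t⟩, ⟨⟨h1, h2⟩, -⟩, rfl⟩
      have hr : ‖(r : ℂ) * Complex.exp (t * Complex.I)‖ = r := by
        rw [norm_mul, Complex.norm_exp_ofReal_mul_I, mul_one, Complex.norm_real, Real.norm_eq_abs,
          abs_of_pos (lt_of_le_of_lt ha h1)]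
      simp only [ann, mem_ofPred_eq]
      rw [hr]
      exact ⟨h1, h2⟩
  rw [this]
  apply IsPreconnected.image
  · exact isPreconnected_Ioo.prod isPreconnected_univ
  · apply Continuous.continuousOn
    fun_prop

/-- the doors -/
def door (N k : ℕ) : Set ℂ :=
  (fun t : ℝ => (((-1 : ℝ) ^ (k + 1) * t : ℝ) : ℂ)) '' Ioo (rho N k) (rho N (k + 2))

lemma door_preconnected (N k : ℕ) : IsPreconnected (door N k) := by
  apply IsPreconnected.image isPreconnected_Ioo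
  apply Continuous.continuousOn
  fun_prop

/-- the corridors -/
def cor (N : ℕ) : ℕ → Set ℂ
  | 0 => ann (rho N 0) (rho N 1)
  | k + 1 => cor N k ∪ (door N k ∪ ann (rho N (k + 1)) (rho N (k + 2)))

lemma rho_nonneg (N j : ℕ) : 0 ≤ rho N j := by
  have := (rho_strictMono N).monotone (Nat.zero_le j)
  rwa [rho_zero] at this

lemma door_norm {N k : ℕ} {t : ℝ} (ht : t ∈ Ioo (rho N k) (rho N (k + 2))) :
    ‖((((-1 : ℝ) ^ (k + 1) * t : ℝ)) : ℂ)‖ = t := by
  rw [Complex.norm_real, Real.norm_eq_abs, abs_mul, abs_pow, abs_neg, abs_one, one_pow, one_mul,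
    abs_of_pos (lt_of_le_of_lt (rho_nonneg N k) ht.1)]

lemma ann_subset_cor (N k : ℕ) : ann (rho N k) (rho N (k + 1)) ⊆ cor N k := by
  rcases k with _ | k
  · exact subset_rfl
  · exact fun z hz => Or.inr (Or.inr hz)

lemma door_inter {N k : ℕ} {t : ℝ} (ht : t ∈ Ioo (rho N k) (rho N (k + 2))) {a b : ℝ}
    (h1 : a < t) (h2 : t < b) : ((((-1 : ℝ) ^ (k + 1) * t : ℝ)) : ℂ) ∈ ann a b := by
  constructor
  · rw [door_norm ht]; exact h1
  · rw [door_norm ht]; exact h2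

lemma cor_preconnected (N k : ℕ) : IsPreconnected (cor N k) := by
  induction k with
  | zero => exact ann_preconnected (rho_nonneg N 0)
  | succ k ih =>
    have h01 : rho N k < rho N (k + 1) := rho_strictMono N (Nat.lt_succ_self k)
    have h12 : rho N (k + 1) < rho N (k + 2) := rho_strictMono N (Nat.lt_succ_self (k + 1))
    obtain ⟨s, hs1, hs2⟩ := exists_between h01
    obtain ⟨t, ht1, ht2⟩ := exists_between h12
    have hsd : s ∈ Ioo (rho N k) (rho N (k + 2)) := ⟨hs1, hs2.trans h12⟩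
    have htd : t ∈ Ioo (rho N k) (rho N (k + 2)) := ⟨h01.trans ht1, ht2⟩
    have hdoor : IsPreconnected (door N k ∪ ann (rho N (k + 1)) (rho N (k + 2))) := by
      apply IsPreconnected.union _ _ _ (door_preconnected N k) (ann_preconnected (rho_nonneg N _))
      · exact ((((-1 : ℝ) ^ (k + 1) * t : ℝ)) : ℂ)
      · exact ⟨t, htd, rfl⟩
      · exact door_inter htd ht1 ht2
    apply IsPreconnected.union _ _ _ ih hdoor
    · exact ((((-1 : ℝ) ^ (k + 1) * s : ℝ)) : ℂ)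
    · exact ann_subset_cor N k (door_inter hsd hs1 hs2)
    · exact Or.inl ⟨s, hsd, rfl⟩

lemma no_between (N : ℕ) {k j : ℕ} (h1 : rho N k < rho N j) (h2 : rho N j < rho N (k + 1)) :
    False := by
  have h3 := (rho_strictMono N).lt_iff_lt.1 h1
  have h4 := (rho_strictMono N).lt_iff_lt.1 h2
  omega

lemma ann_disjoint (N k : ℕ) {z : ℂ} (hz : z ∈ ann (rho N k) (rho N (k + 1))) :
    z ∉ ({0} ∪ wall N : Set ℂ) := by
  rintro (h | h)
  · rw [mem_singleton_iff] at h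
    subst h
    have := hz.1
    rw [norm_zero] at this
    exact absurd (rho_nonneg N k) (not_le.2 this)
  · obtain ⟨j, -, -, h3, -⟩ := mem_wall.1 h
    have h1 := hz.1
    have h2 := hz.2
    rw [h3] at h1 h2
    exact no_between N h1 h2

lemma cor_disjoint (N k : ℕ) {z : ℂ} (hz : z ∈ cor N k) : z ∉ ({0} ∪ wall N : Set ℂ) := by
  induction k with
  | zero => exact ann_disjoint N 0 hz
  | succ k ih =>
    rcases hz with hz | hz | hz
    · exact ih hz
    · obtain ⟨t, ht, rfl⟩ := hz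
      have hn := door_norm ht
      rintro (h | h)
      · rw [mem_singleton_iff] at h
        simp only at h
        rw [h, norm_zero] at hn
        have := ht.1
        rw [← hn] at this
        exact absurd (rho_nonneg N k) (not_le.2 this)
      · obtain ⟨j, h1, -, h3, h4⟩ := mem_wall.1 h
        simp only at h3 h4
        rw [hn] at h3
        have e1 := ht.1
        have e2 := ht.2
        rw [h3] at e1 e2
        have e3 := (rho_strictMono N).lt_iff_lt.1 e1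
        have e4 := (rho_strictMono N).lt_iff_lt.1 e2
        have e5 : j = k + 1 := by omega
        subst e5
        rw [Complex.ofReal_re, ← mul_assoc, ← mul_pow] at h4
        norm_num at h4
        have := rho_ge N h1
        rw [h3] at h4
        linarith
    · exact ann_disjoint N (k + 1) hz

lemma cor_mono (N : ℕ) : Monotone (cor N) := by
  apply monotone_nat_of_le_succ
  intro k z hz
  exact Or.inl hz

/-- There is an unbounded connected set which starts near the origin and avoids the walls. -/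
theorem exists_corridor (N : ℕ) : ∃ V : Set ℂ, IsPreconnected V ∧ (-(1/32) : ℂ) ∈ V ∧
    Disjoint V ({0} ∪ wall N) ∧ ¬ Bornology.IsBounded V := by
  have ha : (-(1/32) : ℂ) ∈ cor N 0 := by
    have h1 : ‖(-(1/32) : ℂ)‖ = 1/32 := by
      rw [norm_neg]; norm_num
    refine ⟨?_, ?_⟩
    · rw [h1, rho_zero]; norm_num
    · rw [h1]
      have := rho_ge N (le_refl 1)
      linarith
  refine ⟨⋃ k, cor N k, ?_, mem_iUnion.2 ⟨0, ha⟩, ?_, ?_⟩
  · apply isPreconnected_iUnion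
    · exact ⟨_, mem_iInter.2 fun k => cor_mono N (Nat.zero_le k) ha⟩
    · exact cor_preconnected N
  · rw [Set.disjoint_left]
    intro z hz
    obtain ⟨k, hk⟩ := mem_iUnion.1 hz
    exact cor_disjoint N k hk
  · intro hb
    obtain ⟨R, hR⟩ := hb.exists_norm_le
    obtain ⟨j, hj⟩ := rho_unbdd N R
    obtain ⟨t, ht1, ht2⟩ := exists_between (rho_strictMono N (Nat.lt_succ_self j))
    have ht0 : 0 < t := lt_of_le_of_lt (rho_nonneg N j) ht1
    have hn : ‖(t : ℂ)‖ = t := by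
      rw [Complex.norm_real, Real.norm_eq_abs, abs_of_pos ht0]
    have hmem : (t : ℂ) ∈ ann (rho N j) (rho N (j + 1)) := by
      refine ⟨?_, ?_⟩
      · rw [hn]; exact ht1
      · rw [hn]; exact ht2
    have := hR _ (mem_iUnion.2 ⟨j, ann_subset_cor N j hmem⟩)
    rw [hn] at this
    linarith

/-- One corridor. -/
lemma crossing {N : ℕ} {γ : ℝ → ℂ} (hγ : ContinuousOn γ (Icc 0 1)) (h0 : γ 0 = 0)
    (h1 : ‖γ 1‖ = 1) (hB : ∀ t ∈ Icc (0:ℝ) 1, γ t ∉ wall N) {j : ℕ} (hj : 1 ≤ j) (hjN : j < N)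
    {x : ℝ} (hx : |x| < 1 / 8) :
    ∃ t ∈ Icc (0:ℝ) 1, γ t ∈ ann (rho N j) (rho N (j + 1)) ∧ (γ t).re = x := by
  have hnc : ContinuousOn (fun t => ‖γ t‖) (Icc (0:ℝ) 1) := hγ.norm
  have hr1 : rho N (j + 1) ≤ 1 / 2 := rho_le N hjN
  have hr0 : 1 / 4 ≤ rho N j := rho_ge N hj
  have hrr : rho N j < rho N (j + 1) := rho_strictMono N (Nat.lt_succ_self j)
  -- first time on the outer circle
  have hT : IsCompact (Icc (0:ℝ) 1 ∩ {t | rho N (j + 1) ≤ ‖γ t‖}) := by
    have : IsClosed (Icc (0:ℝ) 1 ∩ (fun t => ‖γ t‖) ⁻¹' Ici (rho N (j + 1))) :=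
      hnc.preimage_isClosed_of_isClosed isClosed_Icc isClosed_Ici
    exact isCompact_Icc.of_isClosed_subset this inter_subset_left
  obtain ⟨T, hTm, hTl⟩ := hT.exists_isLeast ⟨1, by
    refine ⟨by norm_num, ?_⟩
    change rho N (j + 1) ≤ ‖γ 1‖
    rw [h1]; linarith⟩
  have hTI : T ∈ Icc (0:ℝ) 1 := hTm.1
  have hTge : rho N (j + 1) ≤ ‖γ T‖ := hTm.2
  have hbefore : ∀ t ∈ Icc (0:ℝ) 1, t < T → ‖γ t‖ < rho N (j + 1) := by
    intro t ht htT
    by_contra hcon
    exact absurd (hTl ⟨ht, not_lt.1 hcon⟩) (not_le.2 htT)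
  have hnc' : ContinuousOn (fun t => ‖γ t‖) (Icc (0:ℝ) T) := hnc.mono (Icc_subset_Icc le_rfl hTI.2)
  have hTeq : ‖γ T‖ = rho N (j + 1) := by
    apply le_antisymm _ hTge
    have h00 : ‖γ 0‖ ≤ rho N (j + 1) := by rw [h0, norm_zero]; linarith
    obtain ⟨s, hs, hs2⟩ := intermediate_value_Icc hTI.1 hnc' ⟨h00, hTge⟩
    simp only at hs2
    have hsI : s ∈ Icc (0:ℝ) 1 := ⟨hs.1, hs.2.trans hTI.2⟩
    have : T ≤ s := hTl ⟨hsI, hs2.ge⟩
    have : T = s := le_antisymm this hs.2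
    rw [this, hs2]
  -- last time on the inner circle
  have hS : IsCompact (Icc (0:ℝ) T ∩ {t | ‖γ t‖ ≤ rho N j}) := by
    have : IsClosed (Icc (0:ℝ) T ∩ (fun t => ‖γ t‖) ⁻¹' Iic (rho N j)) :=
      hnc'.preimage_isClosed_of_isClosed isClosed_Icc isClosed_Iic
    exact isCompact_Icc.of_isClosed_subset this inter_subset_left
  obtain ⟨S, hSm, hSl⟩ := hS.exists_isGreatest ⟨0, by
    refine ⟨⟨le_rfl, hTI.1⟩, ?_⟩
    change ‖γ 0‖ ≤ rho N j
    rw [h0, norm_zero]; linarith⟩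
  have hSI : S ∈ Icc (0:ℝ) T := hSm.1
  have hSle : ‖γ S‖ ≤ rho N j := hSm.2
  have hafter : ∀ t ∈ Icc (0:ℝ) T, S < t → rho N j < ‖γ t‖ := by
    intro t ht hSt
    by_contra hcon
    exact absurd (hSl ⟨ht, not_lt.1 hcon⟩) (not_le.2 hSt)
  have hnc'' : ContinuousOn (fun t => ‖γ t‖) (Icc S T) := hnc'.mono (Icc_subset_Icc hSI.1 le_rfl)
  have hSeq : ‖γ S‖ = rho N j := by
    apply le_antisymm hSle
    obtain ⟨s, hs, hs2⟩ := intermediate_value_Icc hSI.2 hnc'' ⟨hSle, by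
      change rho N j ≤ ‖γ T‖
      rw [hTeq]; exact hrr.le⟩
    simp only at hs2
    have hsI : s ∈ Icc (0:ℝ) T := ⟨hSI.1.trans hs.1, hs.2⟩
    have : s ≤ S := hSl ⟨hsI, hs2.le⟩
    have : S = s := le_antisymm hs.1 this
    rw [this, hs2]
  have hSI1 : S ∈ Icc (0:ℝ) 1 := ⟨hSI.1, hSI.2.trans hTI.2⟩
  -- real parts
  have hreS : 1 / 8 < (-1 : ℝ) ^ j * (γ S).re := by
    by_contra hcon
    exact hB S hSI1 (mem_wall.2 ⟨j, hj, hjN.le, hSeq, not_lt.1 hcon⟩)
  have hreT : 1 / 8 < (-1 : ℝ) ^ (j + 1) * (γ T).re := by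
    by_contra hcon
    exact hB T hTI (mem_wall.2 ⟨j + 1, by omega, hjN, hTeq, not_lt.1 hcon⟩)
  have hre : ContinuousOn (fun t => (γ t).re) (Icc S T) :=
    Complex.continuous_re.comp_continuousOn (hγ.mono (Icc_subset_Icc hSI.1 hTI.2))
  have hx1 := (abs_lt.1 hx).1
  have hx2 := (abs_lt.1 hx).2
  have hex : ∃ t ∈ Icc S T, (γ t).re = x := by
    rcases Nat.even_or_odd j with hp | hp
    · rw [hp.neg_one_pow] at hreS
      rw [hp.add_one.neg_one_pow] at hreT
      obtain ⟨t, ht, ht2⟩ := intermediate_value_Icc' hSI.2 hre (show x ∈ Icc _ _ from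
        ⟨by linarith, by linarith⟩)
      exact ⟨t, ht, ht2⟩
    · rw [hp.neg_one_pow] at hreS
      rw [hp.add_one.neg_one_pow] at hreT
      obtain ⟨t, ht, ht2⟩ := intermediate_value_Icc hSI.2 hre (show x ∈ Icc _ _ from
        ⟨by linarith, by linarith⟩)
      exact ⟨t, ht, ht2⟩
  obtain ⟨t, ht, ht2⟩ := hex
  have habs : ∀ (i : ℕ) (y : ℝ), 1 / 8 < (-1 : ℝ) ^ i * y → 1 / 8 < |y| := by
    intro i y hy
    calc 1 / 8 < (-1 : ℝ) ^ i * y := hy
      _ ≤ |(-1 : ℝ) ^ i * y| := le_abs_self _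
      _ = |y| := by rw [abs_mul, abs_pow, abs_neg, abs_one, one_pow, one_mul]
  have hneS : t ≠ S := by
    rintro rfl
    have := habs _ _ hreS
    rw [ht2] at this
    linarith
  have hneT : t ≠ T := by
    rintro rfl
    have := habs _ _ hreT
    rw [ht2] at this
    linarith
  have htS : S < t := lt_of_le_of_ne ht.1 (Ne.symm hneS)
  have htT : t < T := lt_of_le_of_ne ht.2 hneT
  have ht01 : t ∈ Icc (0:ℝ) 1 := ⟨hSI.1.trans ht.1, ht.2.trans hTI.2⟩
  exact ⟨t, ht01, ⟨hafter t ⟨hSI.1.trans ht.1, ht.2⟩ htS, hbefore t ht01 htT⟩, ht2⟩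

lemma measurable_ann (a b : ℝ) : MeasurableSet (ann a b) := by
  have : ann a b = (fun z : ℂ => ‖z‖) ⁻¹' Ioo a b := rfl
  rw [this]
  exact measurableSet_Ioo.preimage measurable_norm

/-- A path from the origin to the unit circle which avoids the walls is long. -/
theorem length_ge {N : ℕ} {γ : ℝ → ℂ} (hγ : ContinuousOn γ (Icc 0 1)) (h0 : γ 0 = 0)
    (h1 : ‖γ 1‖ = 1) (hB : ∀ t ∈ Icc (0:ℝ) 1, γ t ∉ wall N) :
    ((N - 1 : ℕ) : ℝ≥0∞) * ENNReal.ofReal (1 / 4) ≤ μH[1] (γ '' Icc 0 1) := by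
  have himg : MeasurableSet (γ '' Icc 0 1) := (isCompact_Icc.image_of_continuousOn hγ).measurableSet
  set E : ℕ → Set ℂ := fun j => γ '' Icc 0 1 ∩ ann (rho N j) (rho N (j + 1)) with hE
  have hEm : ∀ j, MeasurableSet (E j) := fun j => himg.inter (measurable_ann _ _)
  have hdisj : ∀ i j : ℕ, i < j → Disjoint (E i) (E j) := by
    intro i j hij
    rw [Set.disjoint_left]
    rintro z ⟨-, hz1⟩ ⟨-, hz2⟩
    have h3 : rho N (i + 1) ≤ rho N j := (rho_strictMono N).monotone hij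
    have := hz1.2
    have := hz2.1
    linarith
  have hE1 : ∀ j ∈ Finset.Ico 1 N, ENNReal.ofReal (1 / 4) ≤ μH[1] (E j) := by
    intro j hj
    rw [Finset.mem_Ico] at hj
    have hsub : Ioo (-(1/8) : ℝ) (1/8) ⊆ Complex.re '' (E j) := by
      intro x hx
      obtain ⟨t, ht, ht1, ht2⟩ := crossing hγ h0 h1 hB hj.1 hj.2 (abs_lt.2 hx)
      exact ⟨γ t, ⟨⟨t, ht, rfl⟩, ht1⟩, ht2⟩
    calc ENNReal.ofReal (1 / 4) = volume (Ioo (-(1/8) : ℝ) (1/8)) := by
          rw [Real.volume_Ioo]; norm_num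
      _ ≤ volume (Complex.re '' (E j)) := measure_mono hsub
      _ = μH[1] (Complex.re '' (E j)) := by rw [hausdorffMeasure_real]
      _ ≤ ((1 : ℝ≥0) : ℝ≥0∞) ^ (1:ℝ) * μH[1] (E j) := by
          apply LipschitzWith.hausdorffMeasure_image_le _ (by norm_num)
          apply LipschitzWith.of_dist_le_mul
          intro u v
          rw [NNReal.coe_one, one_mul, Real.dist_eq, dist_eq_norm, ← Complex.sub_re]
          exact Complex.abs_re_le_norm _
      _ = μH[1] (E j) := by simp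
  have hpd : (↑(Finset.Ico 1 N) : Set ℕ).PairwiseDisjoint E := by
    intro i _ j _ hij
    rcases lt_or_gt_of_ne hij with h | h
    · exact hdisj i j h
    · exact (hdisj j i h).symm
  calc ((N - 1 : ℕ) : ℝ≥0∞) * ENNReal.ofReal (1 / 4)
      = ∑ _j ∈ Finset.Ico 1 N, ENNReal.ofReal (1 / 4) := by
        rw [Finset.sum_const, Nat.card_Ico, nsmul_eq_mul]
    _ ≤ ∑ j ∈ Finset.Ico 1 N, μH[1] (E j) := Finset.sum_le_sum hE1
    _ = μH[1] (⋃ j ∈ Finset.Ico 1 N, E j) := (measure_biUnion_finset hpd fun j _ => hEm j).symm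
    _ ≤ μH[1] (γ '' Icc 0 1) := by
        apply measure_mono
        intro z hz
        simp only [mem_iUnion] at hz
        obtain ⟨j, -, hz⟩ := hz
        exact hz.1

end Pool.Agent.Q160.Lem
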