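import Mathlib

/-!
# Approximation of a simple fraction by polynomials on a compact set of the plane
-/

set_option autoImplicit false

open Set Metric Polynomial Topology

namespace Pool.Agent.Q160.Lem

/-- If `a` lies in a preconnected unbounded set which does not meet the compact set `K`, then
`1 / (z - a)` is a uniform limit of polynomials on `K`. -/
theorem runge {K V : Set ℂ} (hK : IsCompact K) {a : ℂ} (hV : IsPreconnected V) (haV : a ∈ V)
    (hVK : Disjoint V K) (hVu : ¬ Bornology.IsBounded V) {ε : ℝ} (hε : 0 < ε) :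
    ∃ p : ℂ[X], ∀ z ∈ K, ‖p.eval z - (z - a)⁻¹‖ < ε := by
  have haK : a ∉ K := fun h => (Set.disjoint_left.1 hVK haV h)
  have : CompactSpace K := isCompact_iff_compactSpace.1 hK
  let S : Subalgebra ℂ C(K, ℂ) := (polynomialFunctions K).topologicalClosure
  have hS : IsClosed (S : Set C(K, ℂ)) := Subalgebra.isClosed_topologicalClosure _
  let xA : C(K, ℂ) := Polynomial.toContinuousMapOn X K
  have hxS : xA ∈ S := by
    apply Subalgebra.le_topologicalClosure
    rw [polynomialFunctions]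
    exact ⟨X, by simp, rfl⟩
  let x : S := ⟨xA, hxS⟩
  have hspec : spectrum ℂ ((x : S) : C(K, ℂ)) = K := by
    rw [ContinuousMap.spectrum_eq_range]
    ext w
    constructor
    · rintro ⟨k, rfl⟩
      simp [x, xA]
    · intro hw
      exact ⟨⟨w, hw⟩, by simp [x, xA]⟩
  have hnot : a ∉ spectrum ℂ x := by
    intro hmem
    have h := Subalgebra.spectrum_isBounded_connectedComponentIn (𝕜 := ℂ) S x hmem
    rw [hspec] at h
    exact hVu (h.subset (hV.subset_connectedComponentIn haV (fun z hz hzK =>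
      Set.disjoint_left.1 hVK hz hzK)))
  rw [spectrum.notMem_iff] at hnot
  obtain ⟨u, hu⟩ := hnot
  let y : S := (↑(u⁻¹) : S)
  have hy : (algebraMap ℂ S a - x) * y = 1 := by
    rw [← hu]; exact Units.mul_inv u
  have hyK : ∀ z : K, (a - (z : ℂ)) * (y : C(K, ℂ)) z = 1 := by
    intro z
    have h1 : ((algebraMap ℂ S a - x : S) * y : S) = (1 : S) := hy
    have h2 : (((algebraMap ℂ S a - x : S) * y : S) : C(K, ℂ)) z = ((1 : S) : C(K, ℂ)) z := by
      rw [h1]
    simpa [x, xA] using h2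
  have hyc : (y : C(K, ℂ)) ∈ closure (polynomialFunctions K : Set C(K, ℂ)) := by
    have hy2 : (y : C(K, ℂ)) ∈ (S : Set C(K, ℂ)) := y.2
    rwa [Subalgebra.topologicalClosure_coe] at hy2
  obtain ⟨q, hq, hqd⟩ := Metric.mem_closure_iff.1 hyc ε hε
  have hq' : q ∈ polynomialFunctions K := hq
  rw [polynomialFunctions] at hq'
  obtain ⟨p, -, hp⟩ := hq'
  refine ⟨-p, fun z hz => ?_⟩
  have h3 : ‖(y : C(K, ℂ)) ⟨z, hz⟩ - q ⟨z, hz⟩‖ < ε := by
    rw [← dist_eq_norm]
    exact lt_of_le_of_lt (ContinuousMap.dist_apply_le_dist _) hqd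
  have hne : a - z ≠ 0 := by
    intro h
    apply haK
    have : a = z := sub_eq_zero.1 h
    rwa [this]
  have h4 : (y : C(K, ℂ)) ⟨z, hz⟩ = (a - z)⁻¹ := by
    have := hyK ⟨z, hz⟩
    exact eq_inv_of_mul_eq_one_right this
  have h5 : q ⟨z, hz⟩ = p.eval z := by
    rw [← hp]; simp
  rw [h4, h5] at h3
  have h6 : (-p).eval z - (z - a)⁻¹ = (a - z)⁻¹ - p.eval z := by
    rw [show (z - a) = -(a - z) by ring, inv_neg]
    simp
    ring
  rw [h6]
  exact h3

end Pool.Agent.Q160.Lem
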