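import Mathlib
import Pool.Agent.Q160.Lem.Runge
import Pool.Agent.Q160.Lem.Lab

/-!
# Monic polynomials with all their roots on the unit circle which are large on the walls
-/

set_option autoImplicit false

open Set Metric Polynomial Topology Filter
open scoped ComplexConjugate

namespace Pool.Agent.Q160.Lem

/-- a polynomial which vanishes at the origin and has positive real part on the walls -/
theorem exists_h (N : ℕ) : ∃ h : ℂ[X], h.eval 0 = 0 ∧ ∀ z ∈ wall N, 1 / 2 ≤ (h.eval z).re := by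
  obtain ⟨V, hV, haV, hVK, hVu⟩ := exists_corridor N
  have hK : IsCompact ({0} ∪ wall N : Set ℂ) := isCompact_singleton.union (isCompact_wall N)
  obtain ⟨p, hp⟩ := runge hK hV haV hVK hVu one_pos
  set a : ℂ := -(1/32) with ha
  have han : ‖a‖ = 1 / 32 := by rw [ha, norm_neg]; norm_num
  have hane : a ≠ 0 := by rw [ha]; norm_num
  refine ⟨C a * (p - C (p.eval 0)), by simp, fun z hz => ?_⟩
  have hz1 := hp z (Or.inr hz)
  have hz0 := hp 0 (Or.inl rfl)
  have hzn := (wall_norm hz).1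
  have hev : (C a * (p - C (p.eval 0))).eval z = a * (p.eval z - p.eval 0) := by simp
  rw [hev]
  have hza : 7 / 32 ≤ ‖z - a‖ := by
    have := norm_sub_norm_le z a
    rw [han] at this
    linarith
  have hzane : z - a ≠ 0 := by
    intro h0
    rw [h0, norm_zero] at hza
    linarith
  have e1 : a * (p.eval z - p.eval 0) = (1 + a * (z - a)⁻¹) +
      a * ((p.eval z - (z - a)⁻¹) - (p.eval 0 - (0 - a)⁻¹)) := by
    field_simp
    ring
  rw [e1]
  have h1 : ‖a * (z - a)⁻¹‖ ≤ 1 / 7 := by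
    rw [norm_mul, norm_inv, han]
    have : ‖z - a‖⁻¹ ≤ (7 / 32)⁻¹ := inv_anti₀ (by norm_num) hza
    calc 1 / 32 * ‖z - a‖⁻¹ ≤ 1 / 32 * (7 / 32)⁻¹ := by gcongr
      _ = 1 / 7 := by norm_num
  have h2 : ‖a * ((p.eval z - (z - a)⁻¹) - (p.eval 0 - (0 - a)⁻¹))‖ ≤ 1 / 16 := by
    rw [norm_mul, han]
    have : ‖(p.eval z - (z - a)⁻¹) - (p.eval 0 - (0 - a)⁻¹)‖ ≤ 1 + 1 :=
      (norm_sub_le _ _).trans (add_le_add hz1.le hz0.le)
    calc 1 / 32 * _ ≤ 1 / 32 * (1 + 1 : ℝ) := by gcongr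
      _ = 1 / 16 := by norm_num
  have h3 := (abs_le.1 ((Complex.abs_re_le_norm _).trans h1)).1
  have h4 := (abs_le.1 ((Complex.abs_re_le_norm _).trans h2)).1
  rw [Complex.add_re, Complex.add_re, Complex.one_re]
  linarith

/-- a polynomial without zeros in the closed unit disc, equal to one at the origin, large on the
walls -/
theorem exists_P (N : ℕ) {c : ℝ} (hc : 0 ≤ c) : ∃ P : ℂ[X], P.eval 0 = 1 ∧
    (∀ z : ℂ, ‖z‖ ≤ 1 → P.eval z ≠ 0) ∧ ∀ z ∈ wall N, c + 2 ≤ ‖P.eval z‖ := by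
  obtain ⟨h, h0, hw⟩ := exists_h N
  obtain ⟨H, hH⟩ := (isCompact_closedBall (0:ℂ) 1).exists_bound_of_continuousOn
    (f := fun z => h.eval z) h.continuous.continuousOn
  have hH0 : 0 ≤ H := (norm_nonneg _).trans (hH 0 (by simp))
  set Λ : ℝ := 2 * (c + 1) with hΛ
  have hΛ0 : 0 < Λ := by rw [hΛ]; linarith
  obtain ⟨M, hM⟩ := exists_nat_gt (Λ * H)
  have hM0 : (0:ℝ) < M := lt_of_le_of_lt (by positivity) hM
  refine ⟨(1 + C ((Λ / M : ℝ) : ℂ) * h) ^ M, by simp [h0], fun z hz => ?_, fun z hz => ?_⟩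
  · rw [eval_pow]
    apply pow_ne_zero
    intro hcon
    have e1 : ((Λ / M : ℝ) : ℂ) * h.eval z = -1 := by
      have : (1 + C ((Λ / M : ℝ) : ℂ) * h).eval z = 1 + ((Λ / M : ℝ) : ℂ) * h.eval z := by simp
      rw [this] at hcon
      linear_combination hcon
    have e2 : ‖((Λ / M : ℝ) : ℂ) * h.eval z‖ = 1 := by rw [e1, norm_neg, norm_one]
    rw [norm_mul, Complex.norm_real, Real.norm_eq_abs, abs_of_pos (by positivity)] at e2
    have e3 : ‖h.eval z‖ ≤ H := hH z (by simpa using hz)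
    have e4 : Λ / M * ‖h.eval z‖ ≤ Λ / M * H := by gcongr
    have e5 : Λ / M * H < 1 := by
      rw [div_mul_eq_mul_div, div_lt_one hM0]; exact hM
    linarith
  · rw [eval_pow, norm_pow]
    have e1 : (1 + C ((Λ / M : ℝ) : ℂ) * h).eval z = 1 + ((Λ / M : ℝ) : ℂ) * h.eval z := by simp
    rw [e1]
    have e2 : 1 + (c + 1) / M ≤ ‖1 + ((Λ / M : ℝ) : ℂ) * h.eval z‖ := by
      refine le_trans ?_ (Complex.re_le_norm _)
      rw [Complex.add_re, Complex.one_re, Complex.re_ofReal_mul]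
      have := hw z hz
      have e3 : Λ / M * (1 / 2) ≤ Λ / M * (h.eval z).re := by gcongr
      have e4 : Λ / M * (1 / 2) = (c + 1) / M := by rw [hΛ]; ring
      linarith
    calc c + 2 = 1 + M * ((c + 1) / M) := by field_simp; ring
      _ ≤ (1 + (c + 1) / M) ^ M := one_add_mul_le_pow (by
          have : 0 ≤ (c + 1) / M := by positivity
          linarith) M
      _ ≤ _ := by gcongr

/-- the reciprocal polynomial -/
noncomputable def star' (P : ℂ[X]) : ℂ[X] := (P.map (starRingEnd ℂ)).reverse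

lemma eval_star' (P : ℂ[X]) {z : ℂ} (hz : z ≠ 0) :
    (star' P).eval z = z ^ P.natDegree * conj (P.eval (conj z⁻¹)) := by
  have hinv : Invertible (z⁻¹) := invertibleOfNonzero (inv_ne_zero hz)
  have h := Polynomial.eval₂_reverse_mul_pow (RingHom.id ℂ) (z⁻¹) (P.map (starRingEnd ℂ))
  have h1 : (⅟(z⁻¹) : ℂ) = z := by rw [invOf_eq_inv, inv_inv]
  rw [h1, ← Polynomial.eval, ← Polynomial.eval, natDegree_map] at h
  have h2 : (P.map (starRingEnd ℂ)).eval (z⁻¹) = conj (P.eval (conj z⁻¹)) := by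
    have e1 : z⁻¹ = conj (conj z⁻¹) := by simp
    conv_lhs => rw [e1]
    rw [eval_map, eval₂_at_apply]
  rw [h2] at h
  rw [star', ← h, inv_pow]
  field_simp

lemma star'_monic {P : ℂ[X]} (h0 : P.eval 0 = 1) :
    (star' P).Monic ∧ (star' P).natDegree = P.natDegree := by
  have hc : (P.map (starRingEnd ℂ)).coeff 0 = 1 := by
    rw [coeff_map, coeff_zero_eq_eval_zero, h0]; simp
  have ht : (P.map (starRingEnd ℂ)).natTrailingDegree = 0 := by
    apply natTrailingDegree_eq_zero_of_constantCoeff_ne_zero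
    rw [constantCoeff_apply, hc]; exact one_ne_zero
  constructor
  · rw [Monic, star', reverse_leadingCoeff, trailingCoeff, ht, hc]
  · rw [star', reverse_natDegree, ht, natDegree_map]; rfl

lemma norm_star'_le {P : ℂ[X]} (hne : ∀ z : ℂ, ‖z‖ ≤ 1 → P.eval z ≠ 0) {z : ℂ} (hz : ‖z‖ ≤ 1) :
    ‖(star' P).eval z‖ ≤ ‖P.eval z‖ := by
  have hd : DiffContOnCl ℂ (fun z => (star' P).eval z / P.eval z) (ball (0:ℂ) 1) := by
    apply DifferentiableOn.diffContOnCl
    rw [closure_ball _ one_ne_zero]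
    intro w hw
    apply DifferentiableAt.differentiableWithinAt
    apply DifferentiableAt.div
    · exact (star' P).differentiableAt
    · exact P.differentiableAt
    · exact hne w (by simpa using hw)
  have hbd : ∀ w ∈ frontier (ball (0:ℂ) 1), ‖(star' P).eval w / P.eval w‖ ≤ 1 := by
    intro w hw
    rw [frontier_ball _ one_ne_zero, mem_sphere_zero_iff_norm] at hw
    have hw0 : w ≠ 0 := by
      intro h; rw [h, norm_zero] at hw; norm_num at hw
    have e1 : conj w⁻¹ = w := by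
      rw [map_inv₀]
      have : w * conj w = 1 := by
        rw [Complex.mul_conj, Complex.normSq_eq_norm_sq, hw]; simp
      exact (eq_inv_of_mul_eq_one_left this).symm
    rw [eval_star' P hw0, e1, norm_div, norm_mul, norm_pow, hw, one_pow, one_mul,
      RCLike.norm_conj]
    exact (div_self (norm_ne_zero_iff.2 (hne w hw.le))).le
  have h := Complex.norm_le_of_forall_mem_frontier_norm_le Metric.isBounded_ball hd hbd
    (z := z) (by rw [closure_ball _ one_ne_zero]; simpa using hz)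
  rw [norm_div, div_le_one (norm_pos_iff.2 (hne z hz))] at h
  exact h

/-- The polynomials of the theorem. -/
theorem exists_f (N : ℕ) {c : ℝ} (hc : 0 ≤ c) : ∃ n₀ : ℕ, ∀ n, n₀ ≤ n → ∃ f : ℂ[X],
    f.Monic ∧ f.natDegree = n ∧ (∀ z : ℂ, f.eval z = 0 → ‖z‖ = 1) ∧
    ∀ z ∈ wall N, c < ‖f.eval z‖ := by
  obtain ⟨P, h0, hne, hw⟩ := exists_P N hc
  obtain ⟨m₀, hm₀⟩ := exists_pow_lt_of_lt_one (show (0:ℝ) < 1 / 2 / (c + 2) by positivity)
    (show (1/2 : ℝ) < 1 by norm_num)
  refine ⟨P.natDegree + m₀ + 1, fun n hn => ?_⟩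
  obtain ⟨m, rfl⟩ : ∃ m, n = m + P.natDegree := ⟨n - P.natDegree, by omega⟩
  have hm : m₀ + 1 ≤ m := by omega
  obtain ⟨hmon, hdeg⟩ := star'_monic h0
  have hXm : (X ^ m * star' P).Monic := (monic_X_pow m).mul hmon
  have hXd : (X ^ m * star' P).natDegree = m + P.natDegree := by
    rw [Monic.natDegree_mul (monic_X_pow m) hmon, natDegree_X_pow, hdeg]
  have hlt : P.degree < (X ^ m * star' P).degree := by
    apply degree_lt_degree
    rw [hXd]; omega
  have hev : ∀ z : ℂ, (X ^ m * star' P + P).eval z = z ^ m * (star' P).eval z + P.eval z := by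
    intro z; simp
  refine ⟨X ^ m * star' P + P, hXm.add_of_left hlt, ?_, ?_, ?_⟩
  · rw [natDegree_add_eq_left_of_degree_lt hlt, hXd]
  · intro z hz
    rw [hev] at hz
    have hz' : z ^ m * (star' P).eval z = - P.eval z := by linear_combination hz
    have hzn : ‖z‖ ^ m * ‖(star' P).eval z‖ = ‖P.eval z‖ := by
      rw [← norm_pow, ← norm_mul, hz', norm_neg]
    rcases lt_trichotomy ‖z‖ 1 with hlt1 | heq | hgt
    · exfalso
      have h1 := norm_star'_le hne hlt1.le
      have h2 : 0 < ‖P.eval z‖ := norm_pos_iff.2 (hne z hlt1.le)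
      have h3 : ‖z‖ ^ m < 1 := pow_lt_one₀ (norm_nonneg _) hlt1 (by omega)
      have h4 : ‖z‖ ^ m * ‖(star' P).eval z‖ ≤ ‖z‖ ^ m * ‖P.eval z‖ := by gcongr
      nlinarith
    · exact heq
    · exfalso
      have hz0 : z ≠ 0 := by
        intro h; rw [h, norm_zero] at hgt; linarith
      set w : ℂ := conj z⁻¹ with hwdef
      have hwn : ‖w‖ = ‖z‖⁻¹ := by rw [hwdef, RCLike.norm_conj, norm_inv]
      have hw1 : ‖w‖ < 1 := by rw [hwn]; exact inv_lt_one_of_one_lt₀ hgt
      have hw0 : w ≠ 0 := by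
        rw [← norm_ne_zero_iff, hwn]; positivity
      have hwz : conj w⁻¹ = z := by rw [hwdef]; simp
      have e1 := eval_star' P hz0
      have e2 := eval_star' P hw0
      rw [hwz] at e2
      have n1 : ‖(star' P).eval z‖ = ‖z‖ ^ P.natDegree * ‖P.eval w‖ := by
        rw [e1, norm_mul, norm_pow, RCLike.norm_conj]
      have n2 : ‖(star' P).eval w‖ = ‖z‖⁻¹ ^ P.natDegree * ‖P.eval z‖ := by
        rw [e2, norm_mul, norm_pow, hwn, RCLike.norm_conj]
      have n3 := norm_star'_le hne hw1.le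
      have n4 : 0 < ‖P.eval w‖ := norm_pos_iff.2 (hne w hw1.le)
      have hzp : 0 < ‖z‖ := norm_pos_iff.2 hz0
      have n5 : ‖P.eval z‖ ≤ ‖z‖ ^ P.natDegree * ‖P.eval w‖ := by
        rw [n2, inv_pow] at n3
        have h5 : 0 < ‖z‖ ^ P.natDegree := by positivity
        calc ‖P.eval z‖ = ‖z‖ ^ P.natDegree * ((‖z‖ ^ P.natDegree)⁻¹ * ‖P.eval z‖) := by
              field_simp
          _ ≤ _ := by gcongr
      rw [← hzn, n1] at n5
      have n6 : 1 < ‖z‖ ^ m := one_lt_pow₀ hgt (by omega)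
      have n7 : 0 < ‖z‖ ^ P.natDegree * ‖P.eval w‖ := by positivity
      nlinarith
  · intro z hz
    rw [hev]
    obtain ⟨hz1, hz2⟩ := wall_norm hz
    have hz3 : ‖z‖ ≤ 1 := by linarith
    have h1 := norm_star'_le hne hz3
    have h2 := hw z hz
    have h3 : ‖z‖ ^ m ≤ (1 / 2) ^ m₀ := by
      calc ‖z‖ ^ m ≤ (1 / 2) ^ m := by gcongr
        _ ≤ (1 / 2) ^ m₀ := pow_le_pow_of_le_one (by norm_num) (by norm_num) (by omega)
    have h6 : ‖P.eval z‖ - ‖z ^ m * (star' P).eval z‖ ≤ ‖z ^ m * (star' P).eval z + P.eval z‖ := by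
      have := norm_sub_norm_le (P.eval z) (-(z ^ m * (star' P).eval z))
      rw [norm_neg, sub_neg_eq_add, add_comm (P.eval z)] at this
      exact this
    have h7 : ‖z ^ m * (star' P).eval z‖ ≤ (1/2) ^ m₀ * ‖P.eval z‖ := by
      rw [norm_mul, norm_pow]
      gcongr
    have h8 : (1/2 : ℝ) ^ m₀ * (c + 2) < 1 / 2 := by
      rwa [lt_div_iff₀ (by linarith)] at hm₀
    have h9 : (1/2 : ℝ) ^ m₀ ≤ 1 := pow_le_one₀ (by norm_num) (by norm_num)
    have h10 : (1 - (1/2 : ℝ) ^ m₀) * (c + 2) ≤ (1 - (1/2 : ℝ) ^ m₀) * ‖P.eval z‖ := by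
      have : 0 ≤ 1 - (1/2 : ℝ) ^ m₀ := by linarith
      gcongr
    nlinarith

end Pool.Agent.Q160.Lem
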